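import Pool.Agent.Helper3_R3B.GRW
import Pool.Agent.Helper10_R3B.STP
import Pool.Agent.Helper96_R3B.SUP
import Pool.Agent.Helper44_R3B.KRN
import Pool.Agent.Helper40_R3B.KEY
import Pool.Agent.Helper61_R3B.DRP
import Pool.Agent.Helper85_R3B.FLR
import Pool.Agent.Helper19_R3B.SQL
import Pool.Agent.Helper49_R3B.URT
import Pool.Agent.Helper34_R3B.CMP
import Pool.Agent.Helper32_R3B.LIP
import Pool.Agent.Helper12_R3B.VBD
import Pool.Agent.Helper75_R3B.LIM
import Pool.Agent.Helper42_R3B.BRT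
import Pool.Agent.Helper86_R3B.SHE
import Pool.Agent.Helper36_R3B.SHA
import Pool.Agent.Helper59_R3B.SHB
import Pool.Agent.Helper8_R3B.PYD
import Pool.Agent.Helper42_R3B.PRV
import Pool.Agent.Helper97_R3B.PRF
import Pool.Agent.Helper21_R3B.BIN
import Pool.Agent.Helper27_R3B.NRM
import Pool.Agent.Helper95_R3B.NRV
import Pool.Agent.Helper51_R3B.HDY
import Pool.Agent.Helper15_R3B.ONE
import Pool.Agent.Helper62_R3B.HRD
import Pool.Agent.Helper13_R3B.LPA
import Pool.Agent.Helper52_R3B.LPB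
import Pool.Agent.Helper45_R3B.WKB
import Pool.Agent.Helper20_R3B.DRB
import Pool.Agent.Helper85_R3B.CTG
import Pool.Agent.Helper94_R3B.ENG
import Pool.Agent.Helper39_R3B.SLB
import Pool.Agent.Helper17_R3B.FIN
import Pool.Agent.Helper59_BEC.GRE

/-!
Squad R3B: assembly. The balls of `ℝ³`, every real `0 < α < 2`.
-/

set_option autoImplicit false

namespace Pool.Agent.R3B.All

open Pool.Agent.R3B

theorem sup : SupStmt := H96.sup (H10.stp H3.grw)

theorem urt : UrtStmt := H49.urt sup H44.krn H40.key H61.drp H85.flr H19.sql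

theorem lim : LimStmt := H75.lim H34.cmp (H32.lip H34.cmp) H12.vbd

theorem brt : BrtStmt := H42.brt urt lim

theorem sha : ShaStmt := H36.sha H86.she

theorem prf : PrfStmt := H97.prf H8.pyd (H42.prv H8.pyd)

theorem bin : BinStmt := H21.bin

theorem nrm : NrmStmt := H27.nrm bin

theorem nrv : NrvStmt := H95.nrv bin

theorem slb : SlbStmt :=
  H39.slb (H62.hrd nrm nrv H51.hdy H15.one) (H45.wkb (H52.lpb (H13.lpa Pool.Agent.BEC.H59.gre) bin)) (H20.drb nrm)
    (H85.ctg nrv H51.hdy)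

/-- The balls of `ℝ³`, every real `0 < α < 2`. -/
theorem fin : FinStmt := H17.fin brt sha H59.shb prf slb (H94.eng bin H51.hdy)

end Pool.Agent.R3B.All
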